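import Pool.Agent.Helper20.P3F.St1

/-!
# Project P3F, module NVC3: numbers for large `t`
-/

set_option autoImplicit false

open MeasureTheory Set Filter Topology
open scoped ENNReal RealInnerProductSpace

namespace Pool.Agent.Helper97.P3F

open Pool.Agent.Helper68.LM (Pl BB Bd Av HL ft fm DQ)
open Pool.Agent.Helper20.RG Pool.Agent.Helper20.EQ Pool.Agent.Helper20.P3F

private theorem zp4_NVC3 (z : ℤ) : (4 : ℝ) ^ z = (2 : ℝ) ^ (2 * (z : ℝ)) := by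
  rw [Real.rpow_mul (by norm_num), Real.rpow_intCast]
  norm_num

private theorem zp2_NVC3 (z : ℤ) : (2 : ℝ) ^ z = (2 : ℝ) ^ (z : ℝ) := by
  rw [Real.rpow_intCast]

/-- the quotient `16 Cf Λ / η²` -/
private theorem quo_NVC3 (Cf η : ℝ) (t u ρ : ℕ) (hη : η = (2 : ℝ) ^ (-((ρ : ℤ) + 2))) :
    16 * Cf * (4 : ℝ) ^ ((t : ℤ) - u - ρ) / η ^ 2 = 256 * Cf * (2 : ℝ) ^ (2 * ((t : ℝ) - u)) := by
  have h1 : η ^ 2 = (2 : ℝ) ^ (-(2 * ((ρ : ℝ) + 2))) := by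
    rw [hη, zp2_NVC3, ← Real.rpow_natCast, ← Real.rpow_mul (by norm_num)]
    congr 1
    push_cast
    ring
  have h2 : (4 : ℝ) ^ ((t : ℤ) - u - ρ) = (2 : ℝ) ^ (2 * ((t : ℝ) - u - ρ)) := by
    rw [zp4_NVC3]
    push_cast
    rfl
  have h3 : (2 : ℝ) ^ (2 * ((t : ℝ) - u - ρ)) =
      (2 : ℝ) ^ (-(2 * ((ρ : ℝ) + 2))) * ((2 : ℝ) ^ (2 * ((t : ℝ) - u)) * (2 : ℝ) ^ (4 : ℝ)) := by
    rw [← Real.rpow_add (by norm_num), ← Real.rpow_add (by norm_num)]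
    congr 1
    ring
  have h4 : (2 : ℝ) ^ (4 : ℝ) = 16 := by
    rw [show (4 : ℝ) = ((4 : ℕ) : ℝ) by norm_num, Real.rpow_natCast]
    norm_num
  have h5 : (0 : ℝ) < (2 : ℝ) ^ (-(2 * ((ρ : ℝ) + 2))) := by positivity
  rw [h1, h2, h3, h4]
  field_simp
  ring

theorem hNVC3 : Pool.Agent.Helper20.P3F.StNVC3 := by
  intro Cf A e κ Cρ hCf hA he0 he1
  set D : ℝ := (3276800 * Cf + 200 * (1 + A) + 1000) * (2 * (3 * Cρ + 5)) with hD
  obtain ⟨n, hn⟩ := pow_unbounded_of_one_lt D (one_lt_two)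
  refine ⟨2 * n, Cf + 1, by linarith, ?_⟩
  intro u v t ρ η m₁ K ht hNu hK0 hK
  obtain ⟨hu2, hv, hu, htu, hρ, hη, hm₁, -⟩ := hNu
  have hd0 : 0 < e / 20 := by linarith
  have hd1 : e / 20 ≤ 1 / 2000 := by linarith
  have ht0 : (0 : ℝ) ≤ t := Nat.cast_nonneg _
  have hu0 : (2 : ℝ) ≤ u := by exact_mod_cast hu2
  have hCρ0 : (0 : ℝ) ≤ Cρ := Nat.cast_nonneg _
  have hρ0 : (0 : ℝ) ≤ ρ := Nat.cast_nonneg _
  have hvR : (v : ℝ) = (Cρ + 1) * u := by rw [hv]; push_cast; ring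
  have huv : (u : ℝ) ≤ v := by rw [hvR]; nlinarith
  have ht2u : (t : ℝ) ≤ 2 * u := by nlinarith
  have hv0 : (2 : ℝ) ≤ v := by linarith
  have hρR : (ρ : ℝ) ≤ Cρ * t := by exact_mod_cast hρ
  -- lower bound for `m₁`
  have hDt : D ≤ (2 : ℝ) ^ ((1 / 2 : ℝ) * t) := by
    have h1 : (n : ℝ) ≤ (1 / 2 : ℝ) * t := by
      have : ((2 * n : ℕ) : ℝ) ≤ t := by exact_mod_cast ht
      push_cast at this
      linarith
    calc D ≤ (2 : ℝ) ^ n := hn.le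
      _ = (2 : ℝ) ^ (n : ℝ) := (Real.rpow_natCast _ _).symm
      _ ≤ (2 : ℝ) ^ ((1 / 2 : ℝ) * t) := Real.rpow_le_rpow_of_exponent_le (by norm_num) h1
  have hdt1 : (1 : ℝ) ≤ (2 : ℝ) ^ (e / 20 * t) := Real.one_le_rpow (by norm_num) (by positivity)
  have h3v : 3 * (v : ℝ) + 2 ≤ (3 * Cρ + 5) * (2 : ℝ) ^ (e / 20 * t) := by
    have h1 : (v : ℝ) ≤ (Cρ + 1) * (2 : ℝ) ^ (e / 20 * t) := by
      rw [hvR]
      exact mul_le_mul_of_nonneg_left hu (by positivity)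
    nlinarith
  have big : ∀ c0 : ℝ, 0 ≤ c0 → c0 * (2 * (3 * Cρ + 5)) ≤ D → c0 * (2 : ℝ) ^ (2 * e * t) ≤ m₁ := by
    intro c0 hc0 hc
    rw [hm₁, le_div_iff₀ (by positivity)]
    have h1 : (2 : ℝ) ^ ((1 / 2 : ℝ) * t) * ((2 : ℝ) ^ (2 * e * t) * (2 : ℝ) ^ (e / 20 * t)) ≤
        (2 : ℝ) ^ ((1 - e) * t) := by
      rw [← Real.rpow_add (by norm_num), ← Real.rpow_add (by norm_num)]
      apply Real.rpow_le_rpow_of_exponent_le (by norm_num)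
      have f1 : (1 / 2 + 2 * e + e / 20) * t ≤ (1 - e) * t :=
        mul_le_mul_of_nonneg_right (by linarith) ht0
      linarith
    have h2 : (0 : ℝ) < (2 : ℝ) ^ (2 * e * t) := by positivity
    have h3 : (0 : ℝ) < (2 : ℝ) ^ (e / 20 * t) := by positivity
    calc c0 * (2 : ℝ) ^ (2 * e * t) * (2 * (3 * (v : ℝ) + 2))
        ≤ c0 * (2 : ℝ) ^ (2 * e * t) * (2 * ((3 * Cρ + 5) * (2 : ℝ) ^ (e / 20 * t))) := by gcongr
      _ = (c0 * (2 * (3 * Cρ + 5))) * ((2 : ℝ) ^ (2 * e * t) * (2 : ℝ) ^ (e / 20 * t)) := by ring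
      _ ≤ (2 : ℝ) ^ ((1 / 2 : ℝ) * t) * ((2 : ℝ) ^ (2 * e * t) * (2 : ℝ) ^ (e / 20 * t)) := by
          apply mul_le_mul_of_nonneg_right (hc.trans hDt) (by positivity)
      _ ≤ _ := h1
  have h1e : (1 : ℝ) ≤ (2 : ℝ) ^ (2 * e * t) := Real.one_le_rpow (by norm_num) (by positivity)
  have h5C : (0 : ℝ) < 2 * (3 * Cρ + 5) := by positivity
  have hq := quo_NVC3 Cf η t u ρ hη
  refine ⟨?_, ?_, ?_, ?_, ?_, ?_⟩
  · have h := big 1000 (by norm_num) (by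
      rw [hD]
      apply mul_le_mul_of_nonneg_right _ h5C.le
      linarith)
    linarith
  · rw [hq]
    have h := big (3276800 * Cf) (by positivity) (by
      rw [hD]
      apply mul_le_mul_of_nonneg_right _ h5C.le
      linarith)
    have h2 : (2 : ℝ) ^ (2 * ((t : ℝ) - u)) ≤ (2 : ℝ) ^ (2 * e * t) := by
      apply Real.rpow_le_rpow_of_exponent_le (by norm_num)
      linarith
    calc 200 * (64 * (256 * Cf * (2 : ℝ) ^ (2 * ((t : ℝ) - u))))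
        = (3276800 * Cf) * (2 : ℝ) ^ (2 * ((t : ℝ) - u)) := by ring
      _ ≤ (3276800 * Cf) * (2 : ℝ) ^ (2 * e * t) := by gcongr
      _ ≤ m₁ := h
  · rw [hη]
    apply zpow_le_zpow_right₀ (by norm_num)
    have h1 : (ρ : ℝ) + 2 ≤ 3 * v := by
      have h0 : (ρ : ℝ) ≤ Cρ * (2 * u) := hρR.trans (mul_le_mul_of_nonneg_left ht2u hCρ0)
      have h00 : 0 ≤ (Cρ : ℝ) * u := mul_nonneg hCρ0 (by linarith)
      rw [hvR]
      linarith
    have h2 : ρ + 2 ≤ 3 * v := by exact_mod_cast h1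
    omega
  · rw [hη]
    apply zpow_le_one_of_nonpos₀ (by norm_num)
    omega
  · have h := big (200 * (1 + A)) (by positivity) (by
      rw [hD]
      apply mul_le_mul_of_nonneg_right _ h5C.le
      linarith)
    have h2 : nv u v (3 * v + 1) A 3 ≤ 1 + A := by
      unfold nv
      have a1 : (2 : ℝ) ^ (3 * (v : ℝ)) ≤ (2 : ℝ) ^ (3 * v + 1 + 1) * (v : ℝ) := by
        have b1 : (2 : ℝ) ^ (3 * (v : ℝ)) = (2 : ℝ) ^ (3 * v) := by
          rw [← Real.rpow_natCast]; push_cast; rfl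
        rw [b1, pow_add, pow_add]
        have b2 : (0 : ℝ) < (2 : ℝ) ^ (3 * v) := by positivity
        nlinarith
      have a2 : ((2 : ℝ) ^ (3 * v + 1 + 1) * (v : ℝ)) ^ (-((1 : ℝ) / 3)) ≤
          ((2 : ℝ) ^ (3 * (v : ℝ))) ^ (-((1 : ℝ) / 3)) := by
        apply Real.rpow_le_rpow_of_nonpos (by positivity) a1
        norm_num
      have a3 : ((2 : ℝ) ^ (3 * (v : ℝ))) ^ (-((1 : ℝ) / 3)) ≤ (2 : ℝ) ^ (-(u : ℝ)) := by
        rw [← Real.rpow_mul (by norm_num)]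
        apply Real.rpow_le_rpow_of_exponent_le (by norm_num)
        linarith
      have a4 : (2 : ℝ) ^ u * (2 : ℝ) ^ (-(u : ℝ)) = 1 := by
        rw [← Real.rpow_natCast, ← Real.rpow_add (by norm_num)]
        simp
      calc 1 + (2 : ℝ) ^ u * (A * ((2 : ℝ) ^ (3 * v + 1 + 1) * (v : ℝ)) ^ (-((1 : ℝ) / 3)))
          ≤ 1 + (2 : ℝ) ^ u * (A * (2 : ℝ) ^ (-(u : ℝ))) := by
            gcongr
            exact a2.trans a3
        _ = 1 + A * ((2 : ℝ) ^ u * (2 : ℝ) ^ (-(u : ℝ))) := by ring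
        _ = 1 + A := by rw [a4, mul_one]
    have h3 : 200 * (1 + A) ≤ 200 * (1 + A) * (2 : ℝ) ^ (2 * e * t) :=
      le_mul_of_one_le_right (by positivity) h1e
    linarith
  · rw [hq]
    have hCf0 : 0 < Cf := by linarith
    have hη' : η = (2 : ℝ) ^ (-((ρ : ℝ) + 2)) := by
      rw [hη, zp2_NVC3]
      push_cast
      rfl
    have b1 : (4 / η) ^ 2 = 16 * (2 : ℝ) ^ (2 * ((ρ : ℝ) + 2)) := by
      have c1 : η ^ 2 = (2 : ℝ) ^ (-(2 * ((ρ : ℝ) + 2))) := by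
        rw [hη', ← Real.rpow_natCast, ← Real.rpow_mul (by norm_num)]
        congr 1
        push_cast
        ring
      rw [div_pow, c1, Real.rpow_neg (by norm_num), div_inv_eq_mul]
      norm_num
    have b2 : ((1 : ℝ) / 2) ^ (16 * v) = (2 : ℝ) ^ (-(16 * (v : ℝ))) := by
      rw [Real.rpow_neg (by norm_num), one_div, inv_pow, ← Real.rpow_natCast]
      push_cast
      rfl
    have b3 : K + v + 1 ≤ (Cf + 1) * (2 : ℝ) ^ (3 * (v : ℝ)) := by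
      have c1 : (2 : ℝ) ^ ((3 : ℝ) * u) ≤ (2 : ℝ) ^ (3 * (v : ℝ)) := by
        apply Real.rpow_le_rpow_of_exponent_le (by norm_num)
        linarith
      have c2 : (v : ℝ) + 1 ≤ (2 : ℝ) ^ (3 * (v : ℝ)) := by
        have d1 : v + 1 ≤ 2 ^ v := Nat.lt_two_pow_self
        have d2 : ((v : ℝ) + 1) ≤ (2 : ℝ) ^ v := by exact_mod_cast d1
        refine d2.trans ?_
        rw [← Real.rpow_natCast]
        apply Real.rpow_le_rpow_of_exponent_le (by norm_num)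
        linarith
      have c3 : Cf * (2 : ℝ) ^ ((3 : ℝ) * u) ≤ Cf * (2 : ℝ) ^ (3 * (v : ℝ)) :=
        mul_le_mul_of_nonneg_left c1 hCf0.le
      linarith
    have b4 : (0 : ℝ) < (2 : ℝ) ^ (2 * ((t : ℝ) - u)) := by positivity
    have b5 : (2 : ℝ) ^ (2 * ((ρ : ℝ) + 2)) = 16 * (2 : ℝ) ^ (2 * (ρ : ℝ)) := by
      have c1 : (2 : ℝ) ^ (2 * ((ρ : ℝ) + 2)) = (2 : ℝ) ^ (2 * (ρ : ℝ)) * (2 : ℝ) ^ (4 : ℝ) := by
        rw [← Real.rpow_add (by norm_num)]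
        congr 1
        ring
      have c2 : (2 : ℝ) ^ (4 : ℝ) = 16 := by
        rw [show (4 : ℝ) = ((4 : ℕ) : ℝ) by norm_num, Real.rpow_natCast]
        norm_num
      rw [c1, c2]
      ring
    have b6 : (2 : ℝ) ^ (-(16 * (v : ℝ))) / (256 * Cf * (2 : ℝ) ^ (2 * ((t : ℝ) - u))) *
        ((4 / η) ^ 2 * (Cf * (K + v + 1))) =
        (2 : ℝ) ^ (-(16 * (v : ℝ))) * (2 : ℝ) ^ (-(2 * ((t : ℝ) - u))) * (2 : ℝ) ^ (2 * (ρ : ℝ)) *
          (K + v + 1) := by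
      rw [b1, b5, Real.rpow_neg (by norm_num) (2 * ((t : ℝ) - u))]
      field_simp
      ring
    rw [b2, b6]
    calc (2 : ℝ) ^ (-(16 * (v : ℝ))) * (2 : ℝ) ^ (-(2 * ((t : ℝ) - u))) * (2 : ℝ) ^ (2 * (ρ : ℝ)) *
          (K + v + 1)
        ≤ (2 : ℝ) ^ (-(16 * (v : ℝ))) * (2 : ℝ) ^ (-(2 * ((t : ℝ) - u))) * (2 : ℝ) ^ (2 * (ρ : ℝ)) *
          ((Cf + 1) * (2 : ℝ) ^ (3 * (v : ℝ))) := by gcongr
      _ = (Cf + 1) * (2 : ℝ) ^ (-(16 * (v : ℝ)) + -(2 * ((t : ℝ) - u)) + 2 * (ρ : ℝ) +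
          3 * (v : ℝ)) := by
          rw [Real.rpow_add (by norm_num), Real.rpow_add (by norm_num),
            Real.rpow_add (by norm_num)]
          ring
      _ ≤ (Cf + 1) * (2 : ℝ) ^ tge e u t ρ := by
          apply mul_le_mul_of_nonneg_left _ (by linarith)
          apply Real.rpow_le_rpow_of_exponent_le (by norm_num)
          unfold tge
          have d3 : e * (t : ℝ) ≤ 1 * t := mul_le_mul_of_nonneg_right (by linarith) ht0
          linarith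

end Pool.Agent.Helper97.P3F
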